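import Pool.Agent.Lib.MP_a7239a_co.RT.CORE3
import Pool.Agent.Lib.MP_a7239a_co.RG.GTV
import Pool.Agent.Lib.MP_a7239a_co.RG.T2
import Pool.Agent.Lib.MP_a7239a_co.RG.LOWG
import Pool.Agent.Lib.MP_a7239a_co.RG.MAINB
import Pool.Agent.Lib.MP_a7239a_co.X1.MX

/-!
# Weakly zero-exponent-sum-free sets in groups whose order divides the square of the exponent
-/

set_option autoImplicit false

open Finset

namespace Pool.Agent.Results.MP_a7239a_co.ExactRatio

open Pool.Agent.Lib.MPa7239a.GC Pool.Agent.Lib.MPa7239a.RK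

/-- `tauHat G h` is the largest size of a set `A ⊆ G` such that no `h` distinct elements of `A`
have sum `0`. -/
noncomputable def tauHat (G : Type*) [AddCommGroup G] (h : ℕ) : ℕ :=
  sSup {k | ∃ A : Finset G, A.card = k ∧ ∀ T ⊆ A, T.card = h → ∑ x ∈ T, x ≠ 0}

/-- `twoCard G` is the number of elements `x` of `G` with `x + x = 0`. -/
noncomputable def twoCard (G : Type*) [AddCommGroup G] : ℕ := Nat.card {x : G // x + x = 0}

/-- the condition (A) for the divisor `s` of `t * m` and the number `c`: with `b = t / s` (rounded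
down), `k = s - t % s` and `o = t * m / s` we have `b c + 2 ≤ o`, and if `s b` is even then
`2 (b + 1) c + 5 ≤ 2 o + m k`, and if `s b` is odd then
`(b + 1) c + 2 + 2 ((o + c) mod 2) ≤ o + m k` -/
def CondA (m t s c : ℕ) : Prop :=
  t / s * c + 2 ≤ t * m / s ∧
    (Even (s * (t / s)) →
      2 * ((t / s + 1) * c) + 5 ≤ 2 * (t * m / s) + m * (s - t % s)) ∧
    (¬ Even (s * (t / s)) →
      (t / s + 1) * c + 2 + 2 * ((t * m / s + c) % 2) ≤ t * m / s + m * (s - t % s))

/-- the condition (B) for the divisor `s` of `t * m` and the number `c`: with `b = t / s`,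
`ρ = t % s`, `k = s - ρ`, `o = t * m / s` and `p` the least prime factor of `m s` we have
`b c + 1 = o`, and some `j` of the parity of `s b` satisfies `j t ≤ b s k` and
`b s ((p - 2) s + p ρ) + 2 p t ≤ p j t` -/
def CondB (m t s c : ℕ) : Prop :=
  t / s * c + 1 = t * m / s ∧ ∃ j, j % 2 = s * (t / s) % 2 ∧
    j * t ≤ t / s * s * (s - t % s) ∧
    t / s * s * (((m * s).minFac - 2) * s + (m * s).minFac * (t % s)) +
      2 * ((m * s).minFac * t) ≤ (m * s).minFac * (j * t)

/-- the admissible numbers `c`; `w` is the number of elements `x` with `x + x = 0` -/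
def Cond (m t w c : ℕ) : Prop :=
  c + 1 ≤ m ∨ (c = m ∧ Odd t ∧ w = 4) ∨
    ∃ s, s ∣ t * m ∧ 3 ≤ s ∧ s < t ∧ ¬ s ∣ t ∧ (CondA m t s c ∨ CondB m t s c)

private theorem bdd {G : Type*} [Finite G] (P : Finset G → Prop) :
    BddAbove {k | ∃ A : Finset G, A.card = k ∧ P A} := by
  classical
  have := Fintype.ofFinite G
  refine ⟨Fintype.card G, ?_⟩
  rintro k ⟨A, rfl, -⟩
  exact card_le_univ A

private theorem le_sup {G : Type*} [Finite G] {P : Finset G → Prop} {A : Finset G} (h : P A) :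
    A.card ≤ sSup {k | ∃ A : Finset G, A.card = k ∧ P A} :=
  le_csSup (bdd P) ⟨A, rfl, h⟩

private theorem sup_le {G : Type*} {P : Finset G → Prop} {N : ℕ}
    (h : ∀ A : Finset G, P A → A.card ≤ N) :
    sSup {k | ∃ A : Finset G, A.card = k ∧ P A} ≤ N := by
  rcases Set.eq_empty_or_nonempty {k | ∃ A : Finset G, A.card = k ∧ P A} with h0 | h0
  · rw [h0, csSup_empty]
    exact Nat.zero_le _
  · apply csSup_le h0
    rintro k ⟨A, rfl, hA⟩
    exact h A hA

private theorem not_hit {G : Type*} [AddCommGroup G] {A : Finset G} {n : ℕ}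
    (h : ∀ T ⊆ A, T.card = n → ∑ x ∈ T, x ≠ 0) : ¬ Hit A n 0 := by
  rintro ⟨T, hT, hc, hs⟩
  exact h T hT hc hs

private theorem of_not_hit {G : Type*} [AddCommGroup G] {A : Finset G} {n : ℕ}
    (h : ¬ Hit A n 0) : ∀ T ⊆ A, T.card = n → ∑ x ∈ T, x ≠ 0 :=
  fun T hT hc hs => h ⟨T, hT, hc, hs⟩

private theorem hit_mono {G : Type*} [AddCommGroup G] {A B : Finset G} {n : ℕ} (hAB : A ⊆ B)
    (h : Hit A n 0) : Hit B n 0 := by
  obtain ⟨T, hT, hc, hs⟩ := h
  exact ⟨T, hT.trans hAB, hc, hs⟩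

private theorem le_tau {G : Type*} [AddCommGroup G] [Finite G] {n : ℕ} {A : Finset G}
    (h : ¬ Hit A n 0) : A.card ≤ tauHat G n :=
  le_sup (P := fun A : Finset G => ∀ T ⊆ A, T.card = n → ∑ x ∈ T, x ≠ 0) (of_not_hit h)

private theorem not_hit_of_cyc {G : Type*} [AddCommGroup G] {A : Finset G} {n : ℕ}
    (h : CycFree A n) : ¬ Hit A n 0 := by
  obtain ⟨o, φ, ho, hφ, hT⟩ := h
  rintro ⟨T, hTA, hc, hs⟩
  exact hT T hTA hc (by rw [hs, map_zero])

/-- an upper bound from sets of one size -/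
private theorem tau_lt {G : Type*} [AddCommGroup G] [Finite G] {n N : ℕ}
    (h : ∀ A : Finset G, A.card = N + 1 → Hit A n 0) : tauHat G n ≤ N := by
  apply sup_le
  intro A hA
  by_contra hcon
  obtain ⟨B, hB, hBc⟩ := exists_subset_card_eq (show N + 1 ≤ A.card by omega)
  exact not_hit hA (hit_mono hB (h B hBc))

/-- the largest set -/
private theorem exists_max {G : Type*} [AddCommGroup G] [Finite G] {n : ℕ} (hn : n ≠ 0) :
    ∃ A : Finset G, A.card = tauHat G n ∧ ¬ Hit A n 0 := by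
  have h1 : tauHat G n ∈ {k | ∃ A : Finset G, A.card = k ∧ ∀ T ⊆ A, T.card = n → ∑ x ∈ T, x ≠ 0} := by
    refine Nat.sSup_mem ⟨0, ∅, card_empty, ?_⟩ (bdd _)
    intro T hT hc
    rw [subset_empty] at hT
    rw [hT, card_empty] at hc
    exact absurd hc.symm hn
  obtain ⟨A, hA, h⟩ := h1
  exact ⟨A, hA, not_hit h⟩

private theorem twoCard_eq {G : Type*} [AddCommGroup G] [Fintype G] [DecidableEq G] :
    twoCard G = #{x : G | x + x = 0} := by
  rw [twoCard, Nat.card_eq_fintype_card, Fintype.card_subtype]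

/-- Let `G` be a finite abelian group of exponent `n` and of order `m * n` where `n = t * m`, so the
order of `G` divides `n ^ 2`.
(1) If `t = 1` and `n ≥ 10 ^ 40 * (log₂ n + 1) ^ 12` then `tauHat G n` is `2 * n` if `twoCard G = 4`
and `2 * n - 2` otherwise.
Let `m ≥ 10 ^ 40 * (t + 1) ^ 16 * (log₂ n + 1) ^ 12`.
(2) If `t = 2` then `tauHat G n` is `3 * m - 1` if `twoCard G ≤ 4` and `3 * m - 2` otherwise.
(3) If `t ≥ 3` then `tauHat G n = n + c` where `c` is the largest number with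
`Cond m t (twoCard G) c`. -/
theorem result {G : Type*} [AddCommGroup G] [Finite G] {m n t : ℕ}
    (hn : AddMonoid.exponent G = n) (hG : Nat.card G = m * n) (hnt : n = t * m) :
    (t = 1 → 10 ^ 40 * (Nat.log 2 n + 1) ^ 12 ≤ n →
      tauHat G n = if twoCard G = 4 then 2 * n else 2 * n - 2) ∧
    (10 ^ 40 * (t + 1) ^ 16 * (Nat.log 2 n + 1) ^ 12 ≤ m →
      (t = 2 → tauHat G n = if twoCard G ≤ 4 then 3 * m - 1 else 3 * m - 2) ∧
      (3 ≤ t → ∃ c, IsGreatest {c | Cond m t (twoCard G) c} c ∧ tauHat G n = n + c)) := by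
  classical
  have := Fintype.ofFinite G
  have hexp : ∀ x : G, n • x = 0 := fun x => by
    rw [← hn]
    exact AddMonoid.exponent_nsmul_eq_zero x
  have hn0 : n ≠ 0 := by
    rw [← hn]
    exact AddMonoid.exponent_ne_zero_of_finite
  have ht0 : t ≠ 0 := by
    rintro rfl
    exact hn0 (by rw [hnt, zero_mul])
  have hm0 : m ≠ 0 := by
    rintro rfl
    exact hn0 (by rw [hnt, mul_zero])
  have : NeZero m := ⟨hm0⟩
  have : NeZero n := ⟨hn0⟩
  have hw : twoCard G = #{x : G | x + x = 0} := twoCard_eq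
  rw [hw]
  refine ⟨fun ht hn40 => ?_, fun hmt => ?_⟩
  · -- `t = 1`
    obtain rfl : m = n := by rw [hnt, ht, one_mul]
    have h2 : 2 ≤ m := by
      have h1 : 1 ≤ (Nat.log 2 m + 1) ^ 12 := Nat.one_le_pow _ _ (by omega)
      calc 2 ≤ 10 ^ 40 * 1 := by norm_num
        _ ≤ 10 ^ 40 * (Nat.log 2 m + 1) ^ 12 := Nat.mul_le_mul_left _ h1
        _ ≤ m := hn40
    obtain ⟨A, hA, hA0⟩ := Pool.Agent.Lib.MPa7239a.RG.exists_free_sq hn hG h2
    obtain ⟨B, hB, hB0⟩ := exists_max (G := G) hm0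
    refine le_antisymm ?_ (hA ▸ le_tau hA0)
    rw [← hB]
    exact Pool.Agent.Lib.MPa7239a.RG.card_le_sq hn hG hn40 hB0
  have hm40 : 10 ^ 40 * (t + 1) ^ 16 ≤ m := by
    have h1 : 1 ≤ (Nat.log 2 n + 1) ^ 12 := Nat.one_le_pow _ _ (by omega)
    calc 10 ^ 40 * (t + 1) ^ 16 = 10 ^ 40 * (t + 1) ^ 16 * 1 := (mul_one _).symm
      _ ≤ 10 ^ 40 * (t + 1) ^ 16 * (Nat.log 2 n + 1) ^ 12 := Nat.mul_le_mul_left _ h1
      _ ≤ m := hmt
  have hm40' : 10 ^ 40 * (Nat.log 2 n + 1) ^ 12 ≤ m := by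
    have h1 : 1 ≤ (t + 1) ^ 16 := Nat.one_le_pow _ _ (by omega)
    calc 10 ^ 40 * (Nat.log 2 n + 1) ^ 12 = 10 ^ 40 * 1 * (Nat.log 2 n + 1) ^ 12 := by ring
      _ ≤ 10 ^ 40 * (t + 1) ^ 16 * (Nat.log 2 n + 1) ^ 12 :=
          Nat.mul_le_mul_right _ (Nat.mul_le_mul_left _ h1)
      _ ≤ m := hmt
  have hm3 : 3 ≤ m := by
    have h1 : 1 ≤ (t + 1) ^ 16 := Nat.one_le_pow _ _ (by omega)
    calc 3 ≤ 10 ^ 40 * 1 := by norm_num
      _ ≤ 10 ^ 40 * (t + 1) ^ 16 := Nat.mul_le_mul_left _ h1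
      _ ≤ m := hm40
  have hpos : 0 < (t + 1) * m := Nat.mul_pos (by omega) (by omega)
  -- sets of the model
  have model : ∀ A : Finset (ZMod m × ZMod (t * m)), CycFree A (t * m) → #A ≤ tauHat G n := by
    intro A hA
    subst hnt
    have : NeZero m := ⟨hm0⟩
    have : NeZero (t * m) := ⟨hn0⟩
    obtain ⟨B, hB, hB'⟩ := Pool.Agent.Lib.MPa7239a.RG.cyc_transport (G' := G)
      (by rw [Pool.Agent.Lib.MPa7239a.RG.card_model, hG])
      (Pool.Agent.Lib.MPa7239a.RG.exponent_model (Dvd.intro_left t rfl)) hn hA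
    rw [← hB]
    exact le_tau (not_hit_of_cyc hB')
  refine ⟨fun ht => ?_, fun ht => ?_⟩
  · -- `t = 2`
    subst ht
    split_ifs with h4
    · refine le_antisymm ?_ ?_
      · exact tau_lt fun A hA => Pool.Agent.Lib.MPa7239a.RT.upper_exact3 hexp hG hnt le_rfl hmt
          (fun s _ h3 hs => by omega) (Or.inl ⟨fun h => by
            have := h.1
            revert this
            decide, by omega⟩)
      · obtain ⟨A, hA, hA0⟩ := Pool.Agent.Lib.MPa7239a.RG.low_even (t := 2) (by omega) (by omega)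
          hn hnt hG ⟨m, by omega⟩ h4
        have := le_tau hA0
        omega
    · refine le_antisymm ?_ ?_
      · exact tau_lt fun A hA => Pool.Agent.Lib.MPa7239a.RG.hit_t2 hnt hexp hG (by omega) hm40'
          (by omega)
      · obtain ⟨A, hA, hA'⟩ := Pool.Agent.Lib.MPa7239a.RK.cyc1 (t := 2) le_rfl hm3
        have := model A hA'
        omega
  -- `t ≥ 3`
  have hm100 : 100 * t ^ 2 ≤ m := by
    have h2 : t ^ 2 ≤ (t + 1) ^ 16 := by
      calc t ^ 2 ≤ (t + 1) ^ 2 := Nat.pow_le_pow_left (by omega) 2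
        _ ≤ (t + 1) ^ 16 := Nat.pow_le_pow_right (by omega) (by norm_num)
    exact (Nat.mul_le_mul (by norm_num) h2).trans hm40
  have htm : (t + 1) * m = n + m := by
    rw [hnt]
    ring
  have hlow : n + m ≤ tauHat G n + 1 := by
    rw [← htm]
    rcases Nat.lt_or_ge t 4 with h | h
    · obtain ⟨A, hA, hA'⟩ := Pool.Agent.Lib.MPa7239a.RK.cyc2 (t := t) (by omega) hm3
        ⟨1, by omega⟩
      have := model A hA'
      omega
    · obtain ⟨A, hA, hA'⟩ := Pool.Agent.Lib.MPa7239a.RB.cyc3 h hm3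
      have := model A hA'
      omega
  obtain ⟨c, hc⟩ : ∃ c, tauHat G n = n + c := ⟨tauHat G n - n, by omega⟩
  refine ⟨c, ⟨?_, ?_⟩, hc⟩
  · -- the upper bound
    show Cond m t _ c
    rcases Nat.lt_or_ge c m with h | h
    · exact Or.inl h
    · obtain ⟨A, hA, hA0⟩ := exists_max (G := G) hn0
      exact Or.inr (Pool.Agent.Lib.MPa7239a.X1.upper_X hexp hG hnt (by omega) hmt
        (hA.trans hc) h hA0)
  · -- the lower bound
    intro c' hc'
    have key : n + c' ≤ tauHat G n := by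
      rcases Nat.lt_or_ge c' m with h | h
      · omega
      rcases hc' with h1 | ⟨h1, hodd, hw4⟩ | ⟨s, hs, h3, hst, hnd, hC⟩
      · omega
      · have hme : Even m := by
          by_contra hmo
          rw [Nat.not_even_iff_odd] at hmo
          obtain ⟨r, hr⟩ : Odd n := by
            rw [hnt]
            exact hodd.mul hmo
          have h5 : univ.filter (fun x : G => x + x = 0) ⊆ {0} := by
            intro x hx
            rw [mem_filter] at hx
            rw [mem_singleton]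
            have h6 := hexp x
            rw [hr, add_smul, mul_comm, mul_smul, two_smul, hx.2, smul_zero, zero_add,
              one_smul] at h6
            exact h6
          have h6 := card_le_card h5
          rw [hw4, card_singleton] at h6
          omega
        obtain ⟨A, hA, hA0⟩ := Pool.Agent.Lib.MPa7239a.RG.low_full (t := t) (by omega) hodd hme
          hn hnt hG hw4.le
        have := le_tau hA0
        omega
      · obtain ⟨A, hA, hA0⟩ := Pool.Agent.Lib.MPa7239a.X1.lower_X hn hG hnt hm100 (by omega)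
          hs h3 hst hnd h hC
        rw [← hA]
        exact le_tau hA0
    omega

end Pool.Agent.Results.MP_a7239a_co.ExactRatio
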