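import Pool.Agent.Lib.MP_a7239a_co.RX.MAINX
import Pool.Agent.Lib.MP_a7239a_co.RF.NEAR
import Pool.Agent.Lib.MP_a7239a_co.RG.GTV
import Pool.Agent.Lib.MP_a7239a_co.RF.LOWF
import Pool.Agent.Lib.MP_a7239a_co.RF.HUGEF

/-!
# Weakly zero-exponent-sum-free sets: an explicit formula up to the constant four
-/

open Finset

namespace Pool.Agent.Results.MP_a7239a_co.ExplicitFormula

open Pool.Agent.Lib.MPa7239a Pool.Agent.Lib.MPa7239a.GC Pool.Agent.Lib.MPa7239a.RK

/-- `tauHat G h` is the largest size of a set `A ⊆ G` such that no `h` distinct elements of `A`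
have sum `0`. -/
noncomputable def tauHat (G : Type*) [AddCommGroup G] (h : ℕ) : ℕ :=
  sSup {k | ∃ A : Finset G, A.card = k ∧ ∀ T ⊆ A, T.card = h → ∑ x ∈ T, x ≠ 0}

/-- For natural numbers `M`, `n`, `o` put `b = ⌊o / M⌋`, `a = o - b M` and `s = ⌊n / o⌋`; `exc M n o`
is the smaller one of the numbers `⌊a / b⌋` and `⌊max (ε s - 2, 0) (M - a) / (2 (b + 1))⌋`, where
`ε = 1` if `s b` is even and `ε = 2` if `s b` is odd. (It is `0` for `o < M`.) -/
def exc (M n o : ℕ) : ℕ :=
  min (o % M / (o / M))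
    (((if Even (n / o * (o / M)) then 1 else 2) * (n / o) - 2) * (M - o % M) / (2 * (o / M + 1)))

/-- `excess M n` is the largest `exc M n o` for the divisors `o` of `n`. -/
def excess (M n : ℕ) : ℕ := n.divisors.sup (exc M n)

private theorem bdd {G : Type*} [Finite G] (P : Finset G → Prop) :
    BddAbove {k | ∃ A : Finset G, A.card = k ∧ P A} := by
  classical
  have := Fintype.ofFinite G
  refine ⟨Fintype.card G, ?_⟩
  rintro k ⟨A, rfl, -⟩
  exact card_le_univ A

private theorem le_sup {G : Type*} [Finite G] {P : Finset G → Prop} {A : Finset G} (h : P A) :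
    A.card ≤ sSup {k | ∃ A : Finset G, A.card = k ∧ P A} :=
  le_csSup (bdd P) ⟨A, rfl, h⟩

private theorem sup_le {G : Type*} {P : Finset G → Prop} {N : ℕ}
    (h : ∀ A : Finset G, P A → A.card ≤ N) :
    sSup {k | ∃ A : Finset G, A.card = k ∧ P A} ≤ N := by
  rcases Set.eq_empty_or_nonempty {k | ∃ A : Finset G, A.card = k ∧ P A} with h0 | h0
  · rw [h0, csSup_empty]
    exact Nat.zero_le _
  · apply csSup_le h0
    rintro k ⟨A, rfl, hA⟩
    exact h A hA

private theorem not_hit {G : Type*} [AddCommGroup G] {A : Finset G} {n : ℕ}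
    (h : ∀ T ⊆ A, T.card = n → ∑ x ∈ T, x ≠ 0) : ¬ Hit A n 0 := by
  rintro ⟨T, hT, hc, hs⟩
  exact h T hT hc hs

private theorem le_tau {G : Type*} [AddCommGroup G] [Finite G] {n : ℕ} {A : Finset G}
    (h : CycFree A n) : A.card ≤ tauHat G n := by
  obtain ⟨o, φ, -, -, h⟩ := h
  apply le_sup (P := fun A : Finset G => ∀ T ⊆ A, T.card = n → ∑ x ∈ T, x ≠ 0)
  intro T hT hc hs
  apply h T hT hc
  rw [hs, map_zero]

private theorem big {L : ℕ} (hL : 1800 ≤ L) : 40000 * (10 ^ 50) ^ 6 * (L + 1) ^ 72 ≤ 2 ^ L := by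
  induction L, hL using Nat.le_induction with
  | base =>
    have h1 : (2 : ℕ) ^ 1800 = (2 ^ 200) ^ 9 := by rw [← pow_mul]
    rw [h1]
    norm_num
  | succ L hL ih =>
    have h3 : (L + 1 + 1) ^ 72 ≤ 2 * (L + 1) ^ 72 := by
      have h4 : (L + 1 + 1) * 1800 ≤ (L + 1) * 1801 := by omega
      have h5 : ((L + 1 + 1) * 1800) ^ 72 ≤ ((L + 1) * 1801) ^ 72 := Nat.pow_le_pow_left h4 72
      rw [mul_pow, mul_pow] at h5
      have h6 : (1801 : ℕ) ^ 72 ≤ 2 * 1800 ^ 72 := by norm_num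
      have h7 : (L + 1 + 1) ^ 72 * 1800 ^ 72 ≤ (2 * (L + 1) ^ 72) * 1800 ^ 72 := by
        calc (L + 1 + 1) ^ 72 * 1800 ^ 72 ≤ (L + 1) ^ 72 * 1801 ^ 72 := h5
          _ ≤ (L + 1) ^ 72 * (2 * 1800 ^ 72) := Nat.mul_le_mul_left _ h6
          _ = (2 * (L + 1) ^ 72) * 1800 ^ 72 := by ring
      exact Nat.le_of_mul_le_mul_right h7 (by positivity)
    generalize 40000 * (10 ^ 50) ^ 6 = K at ih ⊢
    calc K * (L + 1 + 1) ^ 72 ≤ K * (2 * (L + 1) ^ 72) := Nat.mul_le_mul_left _ h3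
      _ = 2 * (K * (L + 1) ^ 72) := by ring
      _ ≤ 2 * 2 ^ L := Nat.mul_le_mul_left _ ih
      _ = 2 ^ (L + 1) := by rw [pow_succ, mul_comm]

/-- if `n` is large and `M ^ 6` is not small against `n` then `M` is large against `log n` -/
private theorem large {M n : ℕ} (hL : 1800 ≤ Nat.log 2 n) (h : n < 40000 * M ^ 6) :
    10 ^ 50 * (Nat.log 2 n + 1) ^ 12 ≤ M := by
  have hn0 : n ≠ 0 := by
    rintro rfl
    simp at hL
  have h1 := Nat.pow_log_le_self 2 hn0
  have h2 := big hL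
  generalize (10 : ℕ) ^ 50 = K at h2 ⊢
  by_contra hcon
  push Not at hcon
  have h3 : M ^ 6 ≤ (K * (Nat.log 2 n + 1) ^ 12) ^ 6 := Nat.pow_le_pow_left hcon.le 6
  have h4 : (K * (Nat.log 2 n + 1) ^ 12) ^ 6 = K ^ 6 * (Nat.log 2 n + 1) ^ 72 := by
    rw [mul_pow, ← pow_mul]
  rw [h4] at h3
  have h5 : 40000 * M ^ 6 ≤ 40000 * K ^ 6 * (Nat.log 2 n + 1) ^ 72 := by
    rw [mul_assoc]
    exact Nat.mul_le_mul_left _ h3
  omega

/-- Let `G` be a finite abelian group of exponent `n` and order `M * n`, where `3 ≤ M ≤ n`, and let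
`log₂ n ≥ 1800` or `n ≥ 40000 * M ^ 6`. Then `tauHat G n` lies between `n + M + excess M n - 4` and
`n + M + excess M n + 4`; it is at most `n + M + excess M n + 1` if `40000 * M ^ 6 ≤ n`. -/
theorem result {G : Type*} [AddCommGroup G] [Finite G] {n M : ℕ}
    (hexp : AddMonoid.exponent G = n) (hcard : Nat.card G = M * n) (hM : 3 ≤ M)
    (hMn : M ≤ n) (hn : 1800 ≤ Nat.log 2 n ∨ 40000 * M ^ 6 ≤ n) :
    n + M + excess M n ≤ tauHat G n + 4 ∧ tauHat G n ≤ n + M + excess M n + 4 ∧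
      (40000 * M ^ 6 ≤ n → tauHat G n ≤ n + M + excess M n + 1) := by
  classical
  have := Fintype.ofFinite G
  have hex : excess M n = RF.excess M n := rfl
  rw [hex]
  have hn0 : n ≠ 0 := by omega
  have huge : 40000 * M ^ 6 ≤ n → tauHat G n ≤ n + M + RF.excess M n + 1 := fun h6 =>
    sup_le fun A hA => RF.upper_huge_F1 hexp hcard hM h6 (not_hit hA)
  refine ⟨?_, ?_, huge⟩
  · rcases Nat.lt_or_ge M n with hlt | hge
    · obtain ⟨A, hA, hA'⟩ := RF.low_F' hexp hcard hM hlt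
      have h1 := le_tau hA
      omega
    · obtain rfl : M = n := by omega
      have h0 : RF.excess M M = 0 := RF.excess_eq_zero hn0 (by omega)
      obtain ⟨A, hA, hA'⟩ := RG.exists_free_sq hexp hcard (by omega)
      have h1 : A.card ≤ tauHat G M :=
        le_sup (P := fun A : Finset G => ∀ T ⊆ A, T.card = M → ∑ x ∈ T, x ≠ 0)
          fun T hT hc hs => hA' ⟨T, hT, hc, hs⟩
      split_ifs at hA with h2 <;> omega
  · rcases Nat.lt_or_ge n (40000 * M ^ 6) with h6 | h6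
    · have hn : 1800 ≤ Nat.log 2 n := hn.resolve_right (by omega)
      have hlarge : 10 ^ 44 * (Nat.log 2 n + 1) ^ 12 ≤ M :=
        le_trans (Nat.mul_le_mul_right _ (by norm_num)) (large hn h6)
      refine sup_le fun A hA => ?_
      rcases Nat.lt_or_ge (100 * n) (101 * M) with h7 | h7
      · have h1 := RF.upper_near (fun x => by
          rw [← hexp]
          exact AddMonoid.exponent_nsmul_eq_zero x) hcard hMn h7.le hlarge (not_hit hA)
        omega
      · have h1 := RX.upper_X hexp hcard h7 hlarge (not_hit hA)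
        omega
    · have h1 := huge h6
      omega

end Pool.Agent.Results.MP_a7239a_co.ExplicitFormula
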