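import Pool.Agent.Lib.MP_a7239a_co.RN.FINALR
import Pool.Agent.Lib.MP_a7239a_co.W2.FIN

/-!
# Weakly zero-exponent-sum-free sets: the leading term for finite abelian groups of order
`o(exponent ^ 4)`, and in all ranks if `e G` is a `p`-group and `G` has few elements killed by `e`

`G` is a finite abelian group of exponent `n`, and `d = secInv G` is the least `d ≥ 1` such that
`d G` is cyclic (the second largest invariant factor of `G`).
-/

set_option autoImplicit false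

open Finset

namespace Pool.Agent.Results.MP_a7239a_co.LeadingTerm

/-- `tauHat G h` is the largest size of a set `A ⊆ G` such that no `h` distinct elements of `A`
have sum `0`. -/
noncomputable def tauHat (G : Type*) [AddCommGroup G] (h : ℕ) : ℕ :=
  sSup {k | ∃ A : Finset G, A.card = k ∧ ∀ T ⊆ A, T.card = h → ∑ x ∈ T, x ≠ 0}

/-- The least `d ≥ 1` such that the subgroup `{d x | x ∈ G}` is contained in a cyclic subgroup,
that is, is cyclic. For a finite group it is the second largest invariant factor of `G`. -/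
noncomputable def secInv (G : Type*) [AddCommGroup G] : ℕ :=
  sInf {d : ℕ | 1 ≤ d ∧ ∃ g : G, ∀ x : G, d • x ∈ AddSubgroup.zmultiples g}

/-- The Erdős–Ginzburg–Ziv constant of `ZMod n ^ t`: the least `s` such that every sequence of `s`
elements of `ZMod n ^ t` (repetitions allowed) has `n` terms of sum `0`. -/
noncomputable def egz (n t : ℕ) : ℕ :=
  sInf {s : ℕ | ∀ f : Fin s → (Fin t → ZMod n), ∃ T : Finset (Fin s), #T = n ∧ ∑ i ∈ T, f i = 0}

theorem result (r : ℕ) (ε : ℝ) (hε : 0 < ε) : ∃ κ : ℝ, 0 < κ ∧ ∃ n₀ : ℕ,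
    ∀ (G : Type) [AddCommGroup G] [Finite G] (n d : ℕ), n = AddMonoid.exponent G →
    d = secInv G → n₀ ≤ n → Nat.card G ≤ n ^ r →
    -- upper bound for `|G| ≤ κ n ^ 3`
    ((Nat.card G : ℝ) ≤ κ * n ^ 3 → (tauHat G n : ℝ) ≤ (2 + ε) * n) ∧
    -- upper bound for `|G| ≤ κ n ^ 4`, or if `e G` is generated by two elements, `e ≤ κ n`
    (((Nat.card G : ℝ) ≤ κ * n ^ 4 ∨ ∃ (e : ℕ) (T : Finset G), 1 ≤ e ∧ (e : ℝ) ≤ κ * n ∧
      #T ≤ 2 ∧ ∀ g : G, e • g ∈ AddSubgroup.closure (T : Set G)) →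
      (tauHat G n : ℝ) ≤ (2 + ε) * n + 2 * d) ∧
    -- lower bounds
    (n * (n - 1) ≤ Nat.card G → 2 * (n - 1) ≤ tauHat G n) ∧
    (n * d * (n - 1) ≤ Nat.card G → 2 * (n - 1) + 2 * (d - 1) ≤ tauHat G n) ∧
    (∀ c : ℕ, c ∣ d → 2 * min (Nat.card G / (n * c)) (n - 1) +
      2 * min (Nat.card G / (n * c)) (c - 1) ≤ tauHat G n) ∧
    -- upper bounds if `e G` is a `p`-group of rank at most `t + 1` and `G` has at most `κ n`
    -- elements `g` with `e g = 0`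
    (∀ t e p : ℕ, t < r → p.Prime → e ∣ n → (Nat.card {g : G // e • g = 0} : ℝ) ≤ κ * n →
      (∀ g : G, ∃ a : ℕ, (p ^ a * e) • g = 0) →
      Nat.card {g : G // (∃ u : G, e • u = g) ∧ p • g = 0} ≤ p ^ (t + 1) →
      (p = 2 → (tauHat G n : ℝ) ≤ (2 ^ t + ε) * n) ∧
      (p = 3 → t = 3 → (tauHat G n : ℝ) ≤ (9 + ε) * n) ∧
      (n₀ ≤ p → (tauHat G n : ℝ) ≤ (egz p t / p + ε) * n) ∧
      (tauHat G n : ℝ) ≤ (p * ((egz p t : ℝ) - 1) / ((p : ℝ) - 1) ^ 2 + ε) * n) ∧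
    -- lower bounds if `G` maps onto `ZMod n ^ t` with a kernel of at least `n - 1` elements
    ∀ (t : ℕ) (χ : G →+ (Fin t → ZMod n)), Function.Surjective χ → n - 1 ≤ Nat.card χ.ker →
      egz n t ≤ tauHat G n + 1 ∧ 2 ^ t * (n - 1) ≤ tauHat G n ∧
      (t = 3 → Odd n → 9 * (n - 1) ≤ tauHat G n) := by
  obtain ⟨κ₁, hκ₁, n₁, h₁⟩ := Pool.Agent.Lib.MPa7239a.RN.rn_final r ε hε
  obtain ⟨κ₂, hκ₂, n₂, h₂⟩ := Pool.Agent.Lib.MPa7239a.W2.up_all (r + 1) (by omega) ε hε r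
  refine ⟨min κ₁ κ₂, lt_min hκ₁ hκ₂, max (max n₁ n₂) 1,
    fun G _ _ n d hn hd hn₀ hcard => ?_⟩
  have hn1 : 1 ≤ n := (le_max_right _ _).trans hn₀
  have hnR : (0 : ℝ) ≤ n := Nat.cast_nonneg n
  have hG : ∀ g : G, n • g = 0 := fun g => by
    rw [hn]
    exact AddMonoid.exponent_nsmul_eq_zero g
  obtain ⟨d', hd'⟩ := Pool.Agent.Lib.MPa7239a.RN.sec_exists G
  have hdd : d = d' := by
    rw [hd]
    exact hd'.csInf_eq
  obtain ⟨a1, a2, a3, a4, a5⟩ := h₁ G n d hn (hdd ▸ hd')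
    ((le_max_left _ _).trans ((le_max_left _ _).trans hn₀)) hcard
  have k1 : ∀ x : ℝ, 0 ≤ x → min κ₁ κ₂ * x ≤ κ₁ * x := fun x hx =>
    mul_le_mul_of_nonneg_right (min_le_left _ _) hx
  refine ⟨fun h => a1 (h.trans (k1 _ (by positivity))), fun h => a2 ?_, a3, a4, a5, ?_, ?_⟩
  · rcases h with h | ⟨e, T, h1, h2, h3, h4⟩
    · exact Or.inl (h.trans (k1 _ (by positivity)))
    · exact Or.inr ⟨e, T, h1, h2.trans (k1 _ hnR), h3, h4⟩
  · intro t e p ht hp he hker hpg hrank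
    obtain ⟨b1, b4, b2, b3⟩ := h₂ n ((le_max_right _ _).trans ((le_max_left _ _).trans hn₀)) G hG
      (hcard.trans (Nat.pow_le_pow_right hn1 (by omega))) t e p ht hp he
      (hker.trans (mul_le_mul_of_nonneg_right (min_le_right _ _) hnR)) hpg hrank
    exact ⟨b1, b4, fun hp₀ => b2 ((le_max_right _ _).trans ((le_max_left _ _).trans hp₀)), b3⟩
  · intro t χ hχ hk
    exact Pool.Agent.Lib.MPa7239a.W2.low_all G n t hn1 χ hχ hk

end Pool.Agent.Results.MP_a7239a_co.LeadingTerm
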