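import Pool.Agent.Lib.MP_a7239a_co.EX.INVF

/-!
# Weakly zero-exponent-sum-free sets in `ℤ_n ^ r`, `n = 2 ^ a`: exact value and extremal sets

For every rank `r`, all large `a` and `n = 2 ^ a`, the largest size of a set in `ℤ_n ^ r` without
`n` distinct elements of sum `0` is `2 ^ (r - 1) n`. The sets of this size are the unions of
`2 ^ (r - 1)` cosets `x k + ⟨l k⟩` of cyclic groups of order `n` such that no numbers
`0 ≤ b k < n` with sum `n` have `∑ k, b k • x k` in the group generated by the `l k` with `0 < b k`.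
-/

set_option autoImplicit false

open Finset

namespace Pool.Agent.Results.MP_a7239a_co.TwoPowers

open Pool.Agent.Lib.MPa7239a

/-- `tauHat G h` is the largest size of a set `A ⊆ G` such that no `h` distinct elements of `A`
have sum `0`. -/
noncomputable def tauHat (G : Type*) [AddCommGroup G] (h : ℕ) : ℕ :=
  sSup {k | ∃ A : Finset G, A.card = k ∧ ∀ T ⊆ A, T.card = h → ∑ x ∈ T, x ≠ 0}

private theorem tau_eq {G : Type*} [AddCommGroup G] [Finite G] {n N : ℕ} {A₀ : Finset G}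
    (hA₀ : #A₀ = N) (hno : ¬ GC.Hit A₀ n 0) (hup : ∀ A : Finset G, N + 1 ≤ #A → GC.Hit A n 0) :
    tauHat G n = N := by
  have : Fintype G := Fintype.ofFinite G
  set S := {k | ∃ A : Finset G, A.card = k ∧ ∀ T ⊆ A, T.card = n → ∑ x ∈ T, x ≠ 0} with hS
  have hbdd : BddAbove S := ⟨Fintype.card G, by
    rintro k ⟨A, rfl, _⟩
    exact card_le_univ A⟩
  have hmem : N ∈ S := ⟨A₀, hA₀, fun T hT hTc hTs => hno ⟨T, hT, hTc, hTs⟩⟩
  refine le_antisymm ?_ (le_csSup hbdd hmem)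
  obtain ⟨A, hA, hA0⟩ := Nat.sSup_mem ⟨_, hmem⟩ hbdd
  by_contra hcon
  push Not at hcon
  obtain ⟨T, hT, hTc, hTs⟩ := hup A (by
    have : sSup S = tauHat G n := rfl
    omega)
  exact hA0 T hT hTc hTs

theorem result :
    ∀ r : ℕ, 1 ≤ r → ∃ a₀ : ℕ, ∀ a : ℕ, a₀ ≤ a →
      tauHat (Fin r → ZMod (2 ^ a)) (2 ^ a) = 2 ^ (r - 1) * 2 ^ a ∧
      ∀ A : Finset (Fin r → ZMod (2 ^ a)), A.card = 2 ^ (r - 1) * 2 ^ a →
        ((∀ T ⊆ A, T.card = 2 ^ a → ∑ x ∈ T, x ≠ 0) ↔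
          ∃ x l : Fin (2 ^ (r - 1)) → Fin r → ZMod (2 ^ a),
            (∀ k, addOrderOf (l k) = 2 ^ a) ∧
            (∀ g, g ∈ A ↔ ∃ k, g - x k ∈ AddSubgroup.zmultiples (l k)) ∧
            ∀ b : Fin (2 ^ (r - 1)) → ℕ, ∑ k, b k = 2 ^ a → (∀ k, b k < 2 ^ a) →
              ∑ k, b k • x k ∉ ⨆ k, ⨆ (_ : b k ≠ 0), AddSubgroup.zmultiples (l k)) := by
  intro r hr
  obtain ⟨a₀, h⟩ := EX.main r hr
  refine ⟨max a₀ 1, fun a ha => ?_⟩
  have ha1 : a₀ ≤ a := (le_max_left _ _).trans ha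
  have ha2 : 1 ≤ a := (le_max_right _ _).trans ha
  obtain ⟨A₀, hA₀, hno₀⟩ := EX.lowz hr ha2
  have : NeZero (2 ^ a) := ⟨by positivity⟩
  refine ⟨tau_eq hA₀ hno₀ fun A hA => ?_, fun A hA => ?_⟩
  · by_contra hcon
    have h1 := ((h a ha1 A).1 ⟨by omega, hcon⟩).1
    omega
  · constructor
    · intro hT
      obtain ⟨-, x, l, h1, h2, h3⟩ := (h a ha1 A).1 ⟨hA.ge, by
        rintro ⟨T, hTA, hTc, hTs⟩
        exact hT T hTA hTc hTs⟩
      exact ⟨x, l, h1, h2, h3⟩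
    · rintro ⟨x, l, h1, h2, h3⟩ T hTA hTc hTs
      exact ((h a ha1 A).2 ⟨hA, x, l, h1, h2, h3⟩).2 ⟨T, hTA, hTc, hTs⟩

end Pool.Agent.Results.MP_a7239a_co.TwoPowers
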